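import Pool.Agent.H.MP_5c297c_an.C

set_option autoImplicit false
open Filter Topology Set MeasureTheory

namespace Pool.Agent.Results.MP_5c297c_an.NotJessen

def tube {n : ℕ} (E : Set (Fin n → ℝ)) : Set (Fin n → ℂ) := {z | (fun j => (z j).im) ∈ E}

def cube {n : ℕ} (a : Fin n → ℝ) (l : ℝ) : Set (Fin n → ℝ) := {x | ∀ j, |x j - a j| < l}

def IsAP {n : ℕ} (G : Set (Fin n → ℝ)) (f : (Fin n → ℂ) → ℂ) : Prop :=
  DifferentiableOn ℂ f (tube G) ∧
    ∀ ε > 0, ∀ E : Set (Fin n → ℝ), IsCompact (closure E) → closure E ⊆ G →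
      ∃ l > 0, ∀ a : Fin n → ℝ, ∃ h ∈ cube a l, ∀ z ∈ tube E,
        ‖f (z + fun j => (h j : ℂ)) - f z‖ ≤ ε

def IsJessen {n : ℕ} (G : Set (Fin n → ℝ)) (φ : (Fin n → ℝ) → ℝ) : Prop :=
  ∃ f : (Fin n → ℂ) → ℂ, IsAP G f ∧ (∃ z ∈ tube G, f z ≠ 0) ∧
    ∀ y ∈ G, Tendsto (fun t : ℝ => ((2 * t) ^ n)⁻¹ *
      ∫ x in cube 0 t, Real.log ‖f (fun j => (x j : ℂ) + (y j : ℂ) * Complex.I)‖) atTop (𝓝 (φ y))

open Pool.Agent.H.MP_5c297c_an in
theorem result (n : ℕ) (hn : 2 ≤ n) :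
    ∃ (G : Set (Fin n → ℝ)) (φ : (Fin n → ℝ) → ℝ), G.Nonempty ∧ IsOpen G ∧ ConvexOn ℝ G φ ∧
      (∀ U ⊆ G, IsOpen U → U.Nonempty → ¬ ∃ A : (Fin n → ℝ) →ᵃ[ℝ] ℝ, EqOn φ A U) ∧
      ¬ IsJessen G φ := by
  have cb : ∀ (a : Fin n → ℝ) (l : ℝ), 0 < l → cube a l = Metric.ball a l := fun a l hl => by
    ext x
    simp only [cube, mem_ofPred_eq, Metric.mem_ball, dist_pi_lt_iff hl, Real.dist_eq]
  let i : Fin n := ⟨0, by omega⟩
  let j : Fin n := ⟨1, by omega⟩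
  have hij : i ≠ j := by simp [i, j]
  have cv : ∀ k : Fin n, ConvexOn ℝ univ fun y : Fin n → ℝ => y k ^ 2 := fun k =>
    (even_two.convexOn_pow (𝕜 := ℝ)).comp_linearMap (LinearMap.proj k : (Fin n → ℝ) →ₗ[ℝ] ℝ)
  refine ⟨univ, fun y => max (y i ^ 2) (y j ^ 2) + 1, univ_nonempty, isOpen_univ,
    ((cv i).sup (cv j)).add_const 1, ?_, ?_⟩
  · rintro U - hU ⟨y, hy⟩ ⟨A, hA⟩
    obtain ⟨r, hr, hb⟩ := Metric.isOpen_iff.1 hU y hy
    have nv : ‖(fun _ => r / 2 : Fin n → ℝ)‖ < r :=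
      (pi_norm_lt_iff hr).2 fun _ => by rw [Real.norm_eq_abs, abs_of_pos (by linarith)]; linarith
    have e1 := hA (hb (show (fun _ => r / 2) + y ∈ Metric.ball y r by simpa using nv))
    have e2 := hA (hb (show -(fun _ => r / 2) + y ∈ Metric.ball y r by simpa using nv))
    have e3 := hA hy
    have e4 := A.map_vadd y (fun _ => r / 2)
    have e5 := A.map_vadd y (-fun _ => r / 2)
    simp only [vadd_eq_add, map_neg] at e4 e5
    simp only [Pi.add_apply, Pi.neg_apply] at e1 e2 e3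
    have a1 := le_max_left ((r / 2 + y i) ^ 2) ((r / 2 + y j) ^ 2)
    have a2 := le_max_right ((r / 2 + y i) ^ 2) ((r / 2 + y j) ^ 2)
    have a3 := le_max_left ((-(r / 2) + y i) ^ 2) ((-(r / 2) + y j) ^ 2)
    have a4 := le_max_right ((-(r / 2) + y i) ^ 2) ((-(r / 2) + y j) ^ 2)
    rcases max_choice (y i ^ 2) (y j ^ 2) with h | h <;> rw [h] at e3 <;> nlinarith
  · rintro ⟨f, ⟨h1, h2⟩, -, h3⟩
    refine main hij (f := f) ⟨differentiableOn_univ.1 h1, fun ε hε R => ?_, fun y => ?_,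
      fun y => by positivity⟩
    · obtain ⟨l, l0, hl⟩ := h2 ε hε (Metric.closedBall 0 R)
        (by rw [Metric.isClosed_closedBall.closure_eq]; exact isCompact_closedBall _ _)
        (subset_univ _)
      refine ⟨l, l0, fun a => ?_⟩
      obtain ⟨h, k1, k2⟩ := hl a
      refine ⟨h, cb a l l0 ▸ k1, fun x y hy => ?_⟩
      have := k2 (pt x y) (by simpa [tube, pt] using hy)
      rwa [show (pt x y + fun j => (h j : ℂ)) = pt (x + h) y by
        ext k; simp only [pt, Pi.add_apply, Complex.ofReal_add]; ring] at this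
    · refine (h3 y trivial).congr' ?_
      filter_upwards [eventually_gt_atTop 0] with t ht
      rw [cb 0 t ht]; rfl

end Pool.Agent.Results.MP_5c297c_an.NotJessen
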